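import Pool.Agent.TInd.AsymB

/-! MP_9225bc_co: the set `N_t`, `t` even, up to a factor `1 + o(1)` at its upper end.
Authors: helper3 (this file, `TInd`), helper1 (`CycApx`: cyclic lattices of every large index near
every lattice, in all dimensions), helper83 (`CycLat`). -/

set_option autoImplicit false

namespace Pool.Agent.Results.MP_9225bc_co.Asymptotic

open Pool.Agent.TInd

/-- For even `t ≥ 2` the set `N_t` lies in `[t²/2 + t + 1, ∞)` and contains all `n` with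
`t²/2 + t + 1 ≤ n < κ (t + 1)³`, where `κ` is the critical determinant of the octahedron; for every
`ε > 0` and all large `t` it contains no `n > (κ + ε) t³`. Moreover `1/6 ≤ κ ≤ 19/108`, and all
`n ∈ N_t` satisfy `n ≤ (19/108) t³ + C t^(5/2)` with an absolute constant `C`. -/
theorem result :
    (1 / 6 ≤ octDet ∧ octDet ≤ 19 / 108) ∧
    (∀ t n : ℕ, 2 ≤ t → Even t → n ∈ N t → t ^ 2 / 2 + t + 1 ≤ n) ∧
    (∀ t n : ℕ, 2 ≤ t → Even t → t ^ 2 / 2 + t + 1 ≤ n →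
      (n : ℝ) < octDet * ((t : ℝ) + 1) ^ 3 → n ∈ N t) ∧
    (∀ ε : ℝ, 0 < ε → ∃ t₀ : ℕ, ∀ t : ℕ, t₀ ≤ t → ∀ n ∈ N t,
      (n : ℝ) ≤ (octDet + ε) * (t : ℝ) ^ 3) ∧
    (∃ C : ℝ, 0 < C ∧ ∀ t : ℕ, 2 ≤ t → ∀ n ∈ N t,
      (n : ℝ) ≤ 19 / 108 * (t : ℝ) ^ 3 + C * (t : ℝ) ^ ((5 : ℝ) / 2)) :=
  ⟨⟨le_octDet, octDet_le⟩, fun _ _ ht hev hn => N_ge ht hev hn,
    fun _ _ ht hev h1 h2 => mem_N_low ht hev h1 h2, N_le, N_le_sharp⟩

end Pool.Agent.Results.MP_9225bc_co.Asymptotic
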