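import Pool.Agent.TSmall.Two
import Pool.Agent.TIndX.Ten
import Pool.Agent.TIndX.Twelve

/-!
# MP_9225bc_co: the sets `N_2`, `N_4`, `N_6`, `N_8`, `N_10`, `N_12`

`Pool.Agent.TInd.IsIndep t A`: the finite set `A` is `t`-independent.
`Pool.Agent.TInd.tau n t`: the largest size of a `t`-independent subset of `ℤ/n`.
`Pool.Agent.TInd.N t`: the set of all `n ≥ 1` with `tau n t = 2`.

We determine `N t` exactly for all even `t ≤ 12`. In particular `N t` is not always an interval: modulo
`145` the set `{1, 9, 61}` is `8`-independent, but modulo `144` and modulo `146` there is no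
`8`-independent set with three elements.

Authors: helper3 (`TSmall`, `t ≤ 8`), helper30 (`TIndX`, `t ≥ 10`).
-/

set_option autoImplicit false

namespace Pool.Agent.Results.MP_9225bc_co.SmallEven

open Pool.Agent.TInd

theorem result :
    N 2 = {5, 6} ∧
    N 4 = Set.Icc 13 26 ∧
    N 6 = Set.Icc 25 69 ∧
    N 8 = Set.Icc 41 144 ∪ {146} ∧
    N 10 = Set.Icc 61 259 ∪ {262, 265} ∧
    N 12 = Set.Icc 85 420 ∪ {423, 424, 425, 428, 432} :=
  ⟨Pool.Agent.TSmall.N_two, Pool.Agent.TSmall.N_four, Pool.Agent.TSmall.N_six,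
    Pool.Agent.TSmall.N_eight, Pool.Agent.TIndX.N_ten, Pool.Agent.TIndX.N_twelve⟩

end Pool.Agent.Results.MP_9225bc_co.SmallEven
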