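import Pool.Agent.TUpper.Rel

/-!
# MP_9225bc_co: an explicit upper bound for `N_t`, for every even `t`

`Pool.Agent.TInd.IsIndep t A`: the finite set `A` is `t`-independent.
`Pool.Agent.TInd.tau n t`: the largest size of a `t`-independent subset of `ℤ/n`.
`Pool.Agent.TInd.N t`: the set of all `n ≥ 1` with `tau n t = 2`.

For every even `t ≥ 2` all elements of `N t` are at most `t ⌈3 (t + 2)² / 16⌉`.

Proof: for `t = 4 j` the integers `3 j² + j`, `3 j² + 2 j`, `3 j² + 3 j + 1`, and for `t = 4 m - 2` the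
integers `3 m² - 3 m + 1`, `3 m² - 1`, `3 m²`, have no integer relation of `ℓ¹`-norm at most `t`.
-/

set_option autoImplicit false

namespace Pool.Agent.Results.MP_9225bc_co.UpperBound

open Pool.Agent.TInd Pool.Agent.TSmall Pool.Agent.TUpper

theorem not_mem_of_ind3 {n t : ℕ} (hn : 1 ≤ n) (ht : 2 ≤ t) {a b c : ℤ} (h : Ind3 n t a b c) :
    n ∉ N t := by
  rw [mem_N_iff]
  rintro ⟨-, -, h3⟩
  exact h3 ((triple_iff' hn ht).2 ⟨a, b, c, h⟩)

theorem upper4 {j n : ℕ} (hj : 1 ≤ j) (hn : n ∈ N (4 * j)) :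
    n ≤ 4 * j * (3 * j ^ 2 + 3 * j + 1) := by
  by_contra hlt
  push Not at hlt
  have hj' : (1 : ℤ) ≤ j := by exact_mod_cast hj
  refine not_mem_of_ind3 (by omega) (by omega)
    (ind3_of_int (a := 3 * (j : ℤ) ^ 2 + j) (b := 3 * (j : ℤ) ^ 2 + 2 * j)
      (c := 3 * (j : ℤ) ^ 2 + 3 * j + 1) (by positivity) (by positivity) (by linarith)
      (by linarith) ?_ ?_) hn
  · exact_mod_cast hlt
  · intro x y z h1 h2
    exact rel4 hj' h1 (by exact_mod_cast h2)

theorem upper2 {m n : ℕ} (hm : 1 ≤ m) (hn : n ∈ N (4 * m - 2)) :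
    n ≤ (4 * m - 2) * (3 * m ^ 2) := by
  by_contra hlt
  push Not at hlt
  have hm' : (1 : ℤ) ≤ m := by exact_mod_cast hm
  have hc : ((4 * m - 2 : ℕ) : ℤ) = 4 * (m : ℤ) - 2 := by
    rw [Nat.cast_sub (by omega)]
    push_cast
    ring
  refine not_mem_of_ind3 (by omega) (by omega)
    (ind3_of_int (a := 3 * (m : ℤ) ^ 2 - 3 * m + 1) (b := 3 * (m : ℤ) ^ 2 - 1)
      (c := 3 * (m : ℤ) ^ 2) (by nlinarith) (by nlinarith) (by linarith)
      (by linarith) ?_ ?_) hn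
  · exact_mod_cast hlt
  · intro x y z h1 h2
    exact rel2 hm' h1 (by rwa [hc] at h2)

/-- For every even `t ≥ 2` the set `N t` lies between `t² / 2 + t + 1` and `t ⌈3 (t + 2)² / 16⌉`. -/
theorem result (t : ℕ) (hev : Even t) (ht : 2 ≤ t) :
    N t ⊆ Set.Icc (t ^ 2 / 2 + t + 1) (t * ⌈3 * ((t : ℚ) + 2) ^ 2 / 16⌉₊) := by
  intro n hn
  refine ⟨N_ge ht hev hn, ?_⟩
  obtain ⟨k, hk⟩ := hev
  obtain ⟨j, hj | hj⟩ := Nat.even_or_odd' k
  · have e : t = 4 * j := by omega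
    subst e
    refine (upper4 (by omega) hn).trans (Nat.mul_le_mul_left _ ?_)
    refine Nat.succ_le_of_lt (Nat.lt_ceil.2 ?_)
    push_cast
    nlinarith
  · have e : t = 4 * (j + 1) - 2 := by omega
    subst e
    refine (upper2 (by omega) hn).trans (Nat.mul_le_mul_left _ ?_)
    have h1 : 3 * (((4 * (j + 1) - 2 : ℕ) : ℚ) + 2) ^ 2 / 16 = ((3 * (j + 1) ^ 2 : ℕ) : ℚ) := by
      rw [Nat.cast_sub (by omega)]
      push_cast
      ring
    rw [h1, Nat.ceil_natCast]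

end Pool.Agent.Results.MP_9225bc_co.UpperBound
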